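import Mathlib

/-!
# An exponential upper bound for the number of partitions

(The proof is the one of `RC14.CONJS.card_partition_le_exp` in the starting library, copied here to
keep the imports light.)
-/

namespace V11176.MC.PartExp
open Finset

/-- the multiplicities of the parts `1, ..., n` -/
def mult {n : ℕ} (p : n.Partition) (i : Fin n) : ℕ := p.parts.count ((i : ℕ) + 1)

lemma mult_inj (n : ℕ) : Function.Injective (mult (n := n)) := by
  intro p q h
  apply Nat.Partition.ext
  ext a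
  rcases Nat.eq_zero_or_pos a with h0 | h0
  · subst h0
    rw [Multiset.count_eq_zero_of_notMem fun h => absurd (p.parts_pos h) (lt_irrefl _),
      Multiset.count_eq_zero_of_notMem fun h => absurd (q.parts_pos h) (lt_irrefl _)]
  · by_cases ha : a ≤ n
    · have h1 := congrFun h (⟨a - 1, by omega⟩ : Fin n)
      simp only [mult] at h1
      have h2 : a - 1 + 1 = a := by omega
      rw [h2] at h1
      exact h1
    · rw [Multiset.count_eq_zero_of_notMem, Multiset.count_eq_zero_of_notMem]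
      · intro h
        apply ha
        rw [← q.parts_sum]
        exact Multiset.single_le_sum (fun _ _ => Nat.zero_le _) a h
      · intro h
        apply ha
        rw [← p.parts_sum]
        exact Multiset.single_le_sum (fun _ _ => Nat.zero_le _) a h

lemma sum_mult {n : ℕ} (p : n.Partition) : ∑ i : Fin n, ((i : ℕ) + 1) * mult p i = n := by
  have h1 : p.parts.sum = n := p.parts_sum
  rw [Finset.sum_multiset_count] at h1
  have h2 : ∑ m ∈ p.parts.toFinset, p.parts.count m • m =
      ∑ m ∈ Finset.Icc 1 n, p.parts.count m • m := by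
    apply Finset.sum_subset
    · intro a ha
      rw [Multiset.mem_toFinset] at ha
      rw [Finset.mem_Icc]
      refine ⟨p.parts_pos ha, ?_⟩
      rw [← p.parts_sum]
      exact Multiset.single_le_sum (fun _ _ => Nat.zero_le _) a ha
    · intro a _ ha
      rw [Multiset.mem_toFinset] at ha
      rw [Multiset.count_eq_zero_of_notMem ha]
      simp
  rw [h2] at h1
  have h3 : ∑ m ∈ Finset.Icc 1 n, p.parts.count m • m =
      ∑ i ∈ Finset.range n, p.parts.count (i + 1) • (i + 1) := by
    rw [Finset.range_eq_Ico, Finset.sum_Ico_add' (fun m => p.parts.count m • m) 0 n 1]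
    rfl
  rw [h3, ← Fin.sum_univ_eq_sum_range (fun i => p.parts.count (i + 1) • (i + 1)) n] at h1
  refine Eq.trans (Finset.sum_congr rfl fun i _ => ?_) h1
  simp only [mult, smul_eq_mul]
  ring

lemma mult_le {n : ℕ} (p : n.Partition) (i : Fin n) : mult p i < n + 1 := by
  have h1 := sum_mult p
  have h2 : ((i : ℕ) + 1) * mult p i ≤ ∑ i : Fin n, ((i : ℕ) + 1) * mult p i :=
    Finset.single_le_sum (f := fun i : Fin n => ((i : ℕ) + 1) * mult p i)
      (fun _ _ => Nat.zero_le _) (Finset.mem_univ i)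
  have h3 : mult p i ≤ ((i : ℕ) + 1) * mult p i := Nat.le_mul_of_pos_left _ (by omega)
  omega

lemma card_mul_le (n : ℕ) (x : ℝ) (hx : 0 < x) :
    (Fintype.card n.Partition : ℝ) * x ^ n ≤
      ∏ i : Fin n, ∑ m ∈ Finset.range (n + 1), (x ^ ((i : ℕ) + 1)) ^ m := by
  classical
  rw [Finset.prod_univ_sum]
  have h1 : (Fintype.card n.Partition : ℝ) * x ^ n =
      ∑ p : n.Partition, ∏ i : Fin n, (x ^ ((i : ℕ) + 1)) ^ (mult p i) := by
    have h2 : ∀ p : n.Partition, ∏ i : Fin n, (x ^ ((i : ℕ) + 1)) ^ (mult p i) = x ^ n := by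
      intro p
      have h3 : ∀ i : Fin n, (x ^ ((i : ℕ) + 1)) ^ (mult p i) =
          x ^ (((i : ℕ) + 1) * mult p i) := fun i => by rw [pow_mul]
      rw [Finset.prod_congr rfl fun i _ => h3 i, Finset.prod_pow_eq_pow_sum, sum_mult]
    rw [Finset.sum_congr rfl fun p _ => h2 p, Finset.sum_const, Finset.card_univ, nsmul_eq_mul]
  rw [h1, ← Finset.sum_image (f := fun g : Fin n → ℕ => ∏ i : Fin n, (x ^ ((i : ℕ) + 1)) ^ (g i))
    (g := mult) (s := Finset.univ) (fun p _ q _ h => mult_inj n h)]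
  apply Finset.sum_le_sum_of_subset_of_nonneg
  · intro g hg
    rw [Finset.mem_image] at hg
    obtain ⟨p, _, rfl⟩ := hg
    rw [Fintype.mem_piFinset]
    exact fun i => Finset.mem_range.2 (mult_le p i)
  · intro g _ _
    exact Finset.prod_nonneg fun i _ => by positivity

lemma geom_le (y : ℝ) (h0 : 0 ≤ y) (h1 : y < 1) (n : ℕ) :
    ∑ m ∈ Finset.range n, y ^ m ≤ (1 - y)⁻¹ := by
  have h2 := geom_sum_mul_neg y n
  have h3 : 0 < 1 - y := by linarith
  rw [← one_div, le_div_iff₀ h3, h2]
  have := pow_nonneg h0 n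
  linarith

/-- the term of the double sum -/
lemma term_le (x : ℝ) (h0 : 0 < x) (h1 : x < 1) (n m : ℕ) :
    ∑ i : Fin n, (x ^ ((i : ℕ) + 1)) ^ (m + 1) / ((m : ℝ) + 1) ≤
      1 / ((m : ℝ) + 1) ^ 2 * (x / (1 - x)) := by
  have hx : 0 < 1 - x := by linarith
  set q : ℝ := x ^ (m + 1) with hq
  have hq0 : 0 < q := by positivity
  have hq1 : q < 1 := pow_lt_one₀ h0.le h1 (by omega)
  have hm : (0 : ℝ) < (m : ℝ) + 1 := by positivity
  have e1 : ∑ i : Fin n, (x ^ ((i : ℕ) + 1)) ^ (m + 1) / ((m : ℝ) + 1) =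
      q * (∑ i ∈ Finset.range n, q ^ i) / ((m : ℝ) + 1) := by
    rw [Fin.sum_univ_eq_sum_range (fun i : ℕ => (x ^ (i + 1)) ^ (m + 1) / ((m : ℝ) + 1)) n,
      ← Finset.sum_div, Finset.mul_sum]
    congr 1
    refine Finset.sum_congr rfl fun i _ => ?_
    rw [hq, ← pow_mul, ← pow_mul, ← pow_add]
    congr 1
    ring
  rw [e1]
  have h2 := geom_le q hq0.le hq1 n
  have h3 : q * (∑ i ∈ Finset.range n, q ^ i) ≤ q * (1 - q)⁻¹ :=
    mul_le_mul_of_nonneg_left h2 hq0.le
  have h4 : q * (1 - q)⁻¹ ≤ x / (1 - x) / ((m : ℝ) + 1) := by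
    rw [← div_eq_mul_inv, div_div, div_le_div_iff₀ (by linarith) (by positivity)]
    have h5 := geom_sum_mul_neg x (m + 1)
    have h6 : ((m : ℝ) + 1) * x ^ m ≤ ∑ i ∈ Finset.range (m + 1), x ^ i := by
      have h7 : ∑ i ∈ Finset.range (m + 1), x ^ m ≤ ∑ i ∈ Finset.range (m + 1), x ^ i :=
        Finset.sum_le_sum fun i hi =>
          pow_le_pow_of_le_one h0.le h1.le (by have := Finset.mem_range.1 hi; omega)
      rw [Finset.sum_const, Finset.card_range, nsmul_eq_mul] at h7
      push_cast at h7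
      exact h7
    have h8 : 1 - q = (∑ i ∈ Finset.range (m + 1), x ^ i) * (1 - x) := by rw [h5]
    rw [h8]
    have h9 : q = x * x ^ m := by rw [hq, pow_succ]; ring
    rw [h9]
    have h10 : ((m : ℝ) + 1) * x ^ m * (1 - x) ≤
        (∑ i ∈ Finset.range (m + 1), x ^ i) * (1 - x) := mul_le_mul_of_nonneg_right h6 hx.le
    nlinarith [mul_le_mul_of_nonneg_left h10 h0.le]
  calc q * (∑ i ∈ Finset.range n, q ^ i) / ((m : ℝ) + 1)
      ≤ (x / (1 - x) / ((m : ℝ) + 1)) / ((m : ℝ) + 1) :=
        div_le_div_of_nonneg_right (h3.trans h4) hm.le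
    _ = 1 / ((m : ℝ) + 1) ^ 2 * (x / (1 - x)) := by
        field_simp

lemma log_sum_le (x : ℝ) (h0 : 0 < x) (h1 : x < 1) (n : ℕ) :
    ∑ i : Fin n, -Real.log (1 - x ^ ((i : ℕ) + 1)) ≤ 2 * (x / (1 - x)) := by
  have hx : 0 < 1 - x := by linarith
  have hS : HasSum (fun m : ℕ => ∑ i : Fin n, (x ^ ((i : ℕ) + 1)) ^ (m + 1) / ((m : ℝ) + 1))
      (∑ i : Fin n, -Real.log (1 - x ^ ((i : ℕ) + 1))) := by
    apply hasSum_sum
    intro i _
    apply Real.hasSum_pow_div_log_of_abs_lt_one
    rw [abs_of_pos (by positivity)]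
    exact pow_lt_one₀ h0.le h1 (by omega)
  have hZ : HasSum (fun m : ℕ => 1 / ((m : ℝ) + 1) ^ 2 * (x / (1 - x)))
      (Real.pi ^ 2 / 6 * (x / (1 - x))) := by
    apply HasSum.mul_right
    have := (hasSum_nat_add_iff' 1).2 hasSum_zeta_two
    simpa using this
  have h2 := hasSum_le (fun m => term_le x h0 h1 n m) hS hZ
  refine h2.trans ?_
  have hpi : Real.pi ^ 2 / 6 ≤ 2 := by
    have := Real.pi_lt_d2
    have := Real.pi_pos
    nlinarith
  exact mul_le_mul_of_nonneg_right hpi (by positivity)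

lemma card_partition_le_exp (n : ℕ) :
    (Fintype.card n.Partition : ℝ) ≤ Real.exp (3 * Real.sqrt n) := by
  rcases Nat.eq_zero_or_pos n with hn | hn
  · subst hn
    simp
  have hn' : (0 : ℝ) < n := by exact_mod_cast hn
  set t : ℝ := Real.sqrt (2 / n) with ht
  have htpos : 0 < t := Real.sqrt_pos.2 (by positivity)
  have ht2 : t * t = 2 / n := Real.mul_self_sqrt (by positivity)
  set x : ℝ := Real.exp (-t) with hx
  have hx0 : 0 < x := Real.exp_pos _
  have hx1 : x < 1 := by rw [hx, Real.exp_lt_one_iff]; linarith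
  have h1x : 0 < 1 - x := by linarith
  have hxt : x / (1 - x) ≤ 1 / t := by
    rw [div_le_div_iff₀ h1x htpos]
    have h3 : t + 1 ≤ Real.exp t := Real.add_one_le_exp t
    have h4 : x * Real.exp t = 1 := by rw [hx, ← Real.exp_add]; simp
    nlinarith
  have hprod : ∏ i : Fin n, ∑ m ∈ Finset.range (n + 1), (x ^ ((i : ℕ) + 1)) ^ m ≤
      Real.exp (2 * (x / (1 - x))) := by
    calc ∏ i : Fin n, ∑ m ∈ Finset.range (n + 1), (x ^ ((i : ℕ) + 1)) ^ m
        ≤ ∏ i : Fin n, (1 - x ^ ((i : ℕ) + 1))⁻¹ := by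
          apply Finset.prod_le_prod
          · intro i _
            exact Finset.sum_nonneg fun m _ => by positivity
          · intro i _
            exact geom_le _ (by positivity) (pow_lt_one₀ hx0.le hx1 (by omega)) _
      _ = Real.exp (∑ i : Fin n, -Real.log (1 - x ^ ((i : ℕ) + 1))) := by
          rw [Real.exp_sum]
          refine Finset.prod_congr rfl fun i _ => ?_
          have : 0 < 1 - x ^ ((i : ℕ) + 1) := by
            have := pow_lt_one₀ hx0.le hx1 (show (i : ℕ) + 1 ≠ 0 by omega)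
            linarith
          rw [Real.exp_neg, Real.exp_log this]
      _ ≤ _ := Real.exp_le_exp.2 (log_sum_le x hx0 hx1 n)
  have hmain := (card_mul_le n x hx0).trans hprod
  have hxn : x ^ n = Real.exp (-(n * t)) := by
    rw [hx, ← Real.exp_nat_mul]; ring_nf
  rw [hxn] at hmain
  have h5 : (Fintype.card n.Partition : ℝ) ≤ Real.exp (n * t) * Real.exp (2 * (x / (1 - x))) := by
    have h6 : Real.exp (n * t) * Real.exp (-(n * t)) = 1 := by
      rw [← Real.exp_add]; simp
    calc (Fintype.card n.Partition : ℝ)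
        = Real.exp (n * t) * ((Fintype.card n.Partition : ℝ) * Real.exp (-(n * t))) := by
          rw [mul_left_comm, h6, mul_one]
      _ ≤ _ := mul_le_mul_of_nonneg_left hmain (Real.exp_pos _).le
  refine h5.trans ?_
  rw [← Real.exp_add]
  apply Real.exp_le_exp.2
  -- `n t = sqrt (2 n)` and `2 / t = sqrt (2 n)`
  have hs : 0 ≤ Real.sqrt n := Real.sqrt_nonneg _
  have hs2 : Real.sqrt n * Real.sqrt n = n := Real.mul_self_sqrt hn'.le
  have h7 : 2 * (x / (1 - x)) ≤ n * t := by
    calc 2 * (x / (1 - x)) ≤ 2 * (1 / t) := by linarith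
      _ = n * t := by
        field_simp
        field_simp at ht2
        nlinarith
  have h8 : (n * t) ≤ (3 / 2) * Real.sqrt n := by
    apply abs_le_of_sq_le_sq' _ (by positivity) |>.2
    have : (n * t) ^ 2 = 2 * n := by
      have : (n * t) ^ 2 = n * n * (t * t) := by ring
      rw [this, ht2]
      field_simp
    rw [this]
    have : (3 / 2 * Real.sqrt n) ^ 2 = 9 / 4 * (Real.sqrt n * Real.sqrt n) := by ring
    rw [this, hs2]
    linarith
  linarith


end V11176.MC.PartExp
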