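import Pool.Agent.V11176.MC.Val

/-!
# The total size of the medium exponents
-/

namespace V11176.MC

open Finset

/-- the bound for the medium exponents -/
def NB (a b m : ℕ) : ℕ := ∑ j ∈ Ico a b, Nat.primeCounting (2 ^ (j + 1)) * 2 ^ (2 * m - j)

theorem card_primes_le (j : ℕ) :
    ((Ioc (2 ^ j) (2 ^ (j + 1))).filter Nat.Prime).card ≤ Nat.primeCounting (2 ^ (j + 1)) := by
  rw [Nat.primeCounting, Nat.primeCounting', Nat.count_eq_card_filter_range]
  apply Finset.card_le_card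
  intro p hp
  rw [mem_filter, mem_Ioc] at hp
  rw [mem_filter, mem_range]
  exact ⟨by omega, hp.2⟩

theorem block_le (j m : ℕ) (hj : j ≤ 2 * m) :
    ∑ p ∈ Ioc (2 ^ j) (2 ^ (j + 1)), (if p.Prime then 2 ^ (2 * m) / (p - 1) else 0) ≤
      Nat.primeCounting (2 ^ (j + 1)) * 2 ^ (2 * m - j) := by
  rw [← Finset.sum_filter]
  refine (Finset.sum_le_card_nsmul _ _ (2 ^ (2 * m - j)) ?_).trans ?_
  · intro p hp
    rw [mem_filter, mem_Ioc] at hp
    calc 2 ^ (2 * m) / (p - 1) ≤ 2 ^ (2 * m) / 2 ^ j :=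
          Nat.div_le_div_left (by omega) (by positivity)
      _ = 2 ^ (2 * m - j) := Nat.pow_div hj (by norm_num)
  · rw [smul_eq_mul]
    exact Nat.mul_le_mul_right _ (card_primes_le j)

theorem sum_primes_le (a b m : ℕ) (hab : a ≤ b) (hb : b ≤ 2 * m) :
    ∑ p ∈ Ioc (2 ^ a) (2 ^ b), (if p.Prime then 2 ^ (2 * m) / (p - 1) else 0) ≤ NB a b m := by
  induction b, hab using Nat.le_induction with
  | base => simp
  | succ b hab ih =>
    rw [← Finset.sum_Ioc_consecutive _ (Nat.pow_le_pow_right (by norm_num) hab)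
      (Nat.pow_le_pow_right (by norm_num) (Nat.le_succ b)), NB, Finset.sum_Ico_succ_top hab]
    exact add_le_add (ih (by omega)) (block_le b m (by omega))

theorem core_sum_le {a m : ℕ} (ha : a ≤ m) {V : ℕ} (h : Good (2 ^ (2 * m)) V) :
    (core (2 ^ a) (2 ^ (2 * m)) (2 ^ a) V).sum ≤ NB a (2 * m - a) m := by
  refine le_trans ?_ (sum_primes_le a (2 * m - a) m (by omega) (by omega))
  rw [← Finset.sum_filter, core]
  change ∑ p ∈ coreSet (2 ^ a) (2 ^ (2 * m)) (2 ^ a) V, (V.factorization p - 2 ^ a) ≤ _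
  have hmem : ∀ p ∈ coreSet (2 ^ a) (2 ^ (2 * m)) (2 ^ a) V,
      p ∈ (Ioc (2 ^ a) (2 ^ (2 * m - a))).filter Nat.Prime ∧
        V.factorization p - 2 ^ a ≤ 2 ^ (2 * m) / (p - 1) := by
    intro p hp
    rw [coreSet, prs, mem_filter, mem_filter, mem_Ioc] at hp
    obtain ⟨⟨⟨h1, h2⟩, h3⟩, h4⟩ := hp
    have h5 := h.bound p h3
    have h6 : 0 < p - 1 := by have := h3.two_le; omega
    constructor
    · rw [mem_filter, mem_Ioc]
      refine ⟨⟨h1, ?_⟩, h3⟩
      by_contra hcon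
      have h7 : 2 ^ (2 * m - a) ≤ p - 1 := by omega
      have h8 : 2 ^ (2 * m - a) * (2 ^ a + 1) ≤ 2 ^ (2 * m) :=
        (Nat.mul_le_mul h7 h4).trans h5
      have h9 : 2 ^ (2 * m - a) * 2 ^ a = 2 ^ (2 * m) := by
        rw [← pow_add]
        congr 1
        omega
      have h10 : 0 < 2 ^ (2 * m - a) := by positivity
      rw [mul_add, h9] at h8
      omega
    · refine (Nat.sub_le _ _).trans ?_
      rw [Nat.le_div_iff_mul_le h6, mul_comm]
      exact h5
  calc ∑ p ∈ coreSet (2 ^ a) (2 ^ (2 * m)) (2 ^ a) V, (V.factorization p - 2 ^ a)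
      ≤ ∑ p ∈ coreSet (2 ^ a) (2 ^ (2 * m)) (2 ^ a) V, 2 ^ (2 * m) / (p - 1) :=
        Finset.sum_le_sum fun p hp => (hmem p hp).2
    _ ≤ _ := Finset.sum_le_sum_of_subset fun p hp => (hmem p hp).1

theorem pi_two_pow {k : ℕ} (hk : 4 ≤ k) :
    (Nat.primeCounting (2 ^ k) : ℝ) ≤ 5 * 2 ^ k / k := by
  have hk0 : (0 : ℝ) < k := by exact_mod_cast (by omega : 0 < k)
  have h1 : (1 : ℝ) < 2 ^ k := one_lt_pow₀ (by norm_num) (by omega)
  have h := Chebyshev.pi_le_log4_mul_div h1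
  have hfl : ⌊((2 : ℝ) ^ k)⌋₊ = 2 ^ k := by
    have : ((2 : ℝ) ^ k) = ((2 ^ k : ℕ) : ℝ) := by push_cast; rfl
    rw [this, Nat.floor_natCast]
  rw [hfl] at h
  have hl4 : Real.log 4 = 2 * Real.log 2 := by
    rw [show (4 : ℝ) = 2 ^ 2 by norm_num, Real.log_pow]
    push_cast
    ring
  have hl2 : 0 < Real.log 2 := Real.log_pos (by norm_num)
  have hlog : Real.log (√((2 : ℝ) ^ k)) = (k / 2) * Real.log 2 := by
    rw [Real.log_sqrt (by positivity), Real.log_pow]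
    ring
  rw [hlog, hl4] at h
  have e1 : 2 * Real.log 2 * 2 ^ k / ((k : ℝ) / 2 * Real.log 2) = 4 * 2 ^ k / k := by
    field_simp
    ring
  rw [e1] at h
  have hsq : √((2 : ℝ) ^ k) ≤ 2 ^ k / k := by
    rw [Real.sqrt_le_left (by positivity), div_pow, le_div_iff₀ (by positivity), sq ((2 : ℝ) ^ k)]
    apply mul_le_mul_of_nonneg_left _ (by positivity)
    have h2 : ∀ j : ℕ, 4 ≤ j → j ^ 2 ≤ 2 ^ j := by
      intro j hj
      induction j, hj using Nat.le_induction with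
      | base => norm_num
      | succ j hj ih =>
        rw [pow_succ 2 j]
        nlinarith
    exact_mod_cast h2 k hk
  calc (Nat.primeCounting (2 ^ k) : ℝ) ≤ 4 * 2 ^ k / k + √((2 : ℝ) ^ k) := h
    _ ≤ 4 * 2 ^ k / k + 2 ^ k / k := by linarith
    _ = 5 * 2 ^ k / k := by ring

theorem NB_le {a m : ℕ} (ha : 4 ≤ a) (ham : a ≤ m) :
    (NB a (2 * m - a) m : ℝ) ≤ (2 * m - 2 * a : ℝ) * (10 * 2 ^ (2 * m) / a) := by
  have ha0 : (0 : ℝ) < a := by exact_mod_cast (by omega : 0 < a)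
  rw [NB]
  push_cast
  refine (Finset.sum_le_card_nsmul _ _ (10 * (2 : ℝ) ^ (2 * m) / a) ?_).trans ?_
  · intro j hj
    rw [mem_Ico] at hj
    have h1 := pi_two_pow (k := j + 1) (by omega)
    have h2 : (0 : ℝ) ≤ 2 ^ (2 * m - j) := by positivity
    refine (mul_le_mul_of_nonneg_right h1 h2).trans ?_
    have h3 : (2 : ℝ) ^ (j + 1) * 2 ^ (2 * m - j) = 2 * 2 ^ (2 * m) := by
      rw [← pow_add, show j + 1 + (2 * m - j) = 2 * m + 1 by omega, pow_succ]
      ring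
    have h4 : 5 * (2 : ℝ) ^ (j + 1) / ((j + 1 : ℕ) : ℝ) * 2 ^ (2 * m - j) =
        10 * 2 ^ (2 * m) / ((j + 1 : ℕ) : ℝ) := by
      rw [div_mul_eq_mul_div, mul_assoc, h3]
      ring
    rw [h4]
    apply div_le_div_of_nonneg_left (by positivity) ha0
    exact_mod_cast (by omega : a ≤ j + 1)
  · rw [Nat.card_Ico, nsmul_eq_mul]
    apply mul_le_mul_of_nonneg_right _ (by positivity)
    rw [show 2 * m - a - a = 2 * m - 2 * a by omega, Nat.cast_sub (by omega)]
    push_cast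
    linarith

end V11176.MC
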