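import Mathlib

/-!
# Exponents of primes in products of factorials
-/

namespace V11176.MC

open Finset

/-- the product of the factorials of the entries of `l` -/
def fp (l : List ℕ) : ℕ := (l.map Nat.factorial).prod

theorem fp_nil : fp [] = 1 := rfl

theorem fp_cons (a : ℕ) (l : List ℕ) : fp (a :: l) = a.factorial * fp l := by
  simp [fp]

theorem fp_ne_zero (l : List ℕ) : fp l ≠ 0 := by
  induction l with
  | nil => simp [fp_nil]
  | cons a l ih =>
    rw [fp_cons]
    exact mul_ne_zero a.factorial_ne_zero ih

theorem fact_cons (a : ℕ) (l : List ℕ) (p : ℕ) :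
    (fp (a :: l)).factorization p = a.factorial.factorization p + (fp l).factorization p := by
  rw [fp_cons, Nat.factorization_mul a.factorial_ne_zero (fp_ne_zero l)]
  rfl

theorem mul_fact_le (l : List ℕ) {p : ℕ} (hp : p.Prime) :
    (p - 1) * (fp l).factorization p ≤ l.sum := by
  have := Fact.mk hp
  induction l with
  | nil => simp [fp_nil]
  | cons a l ih =>
    rw [fact_cons, mul_add, List.sum_cons]
    refine add_le_add ?_ ih
    rw [Nat.factorization_def _ hp, sub_one_mul_padicValNat_factorial]
    exact Nat.sub_le _ _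

theorem factorial_antitone (m : ℕ) {p q : ℕ} (hp : p.Prime) (hq : q.Prime) (hpq : p ≤ q) :
    m.factorial.factorization q ≤ m.factorial.factorization p := by
  have := Fact.mk hp
  have := Fact.mk hq
  rw [Nat.factorization_def _ hp, Nat.factorization_def _ hq,
    padicValNat_factorial (b := m + 1) (Nat.lt_succ_of_le (Nat.log_le_self _ _)),
    padicValNat_factorial (b := m + 1) (Nat.lt_succ_of_le (Nat.log_le_self _ _))]
  refine Finset.sum_le_sum fun i _ => ?_
  exact Nat.div_le_div_left (Nat.pow_le_pow_left hpq i) (pow_pos hp.pos i)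

theorem fact_antitone (l : List ℕ) {p q : ℕ} (hp : p.Prime) (hq : q.Prime) (hpq : p ≤ q) :
    (fp l).factorization q ≤ (fp l).factorization p := by
  induction l with
  | nil => simp [fp_nil]
  | cons a l ih =>
    rw [fact_cons, fact_cons]
    exact add_le_add (factorial_antitone a hp hq hpq) ih

theorem fact_eq_zero (l : List ℕ) {p : ℕ} (hp : p.Prime) (h : l.sum < p) :
    (fp l).factorization p = 0 := by
  induction l with
  | nil => simp [fp_nil]
  | cons a l ih =>
    rw [List.sum_cons] at h
    rw [fact_cons, ih (by omega), add_zero]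
    apply Nat.factorization_eq_zero_of_not_dvd
    rw [hp.dvd_factorial]
    omega

/-- the values `∏ λ_j!` -/
def vals (n : ℕ) : Set ℕ := {V | ∃ l : List ℕ, l.sum = n ∧ V = fp l}

/-- the properties of these values that are used -/
structure Good (n V : ℕ) : Prop where
  ne : V ≠ 0
  bound : ∀ p : ℕ, p.Prime → (p - 1) * V.factorization p ≤ n
  anti : ∀ p q : ℕ, p.Prime → q.Prime → p ≤ q → V.factorization q ≤ V.factorization p
  zero : ∀ p : ℕ, p.Prime → n < p → V.factorization p = 0

theorem good_of_mem {n V : ℕ} (h : V ∈ vals n) : Good n V := by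
  obtain ⟨l, rfl, rfl⟩ := h
  exact ⟨fp_ne_zero l, fun p hp => mul_fact_le l hp, fun p q hp hq h => fact_antitone l hp hq h,
    fun p hp h => fact_eq_zero l hp h⟩

theorem Good.le {n V : ℕ} (h : Good n V) (p : ℕ) : V.factorization p ≤ n := by
  by_cases hp : p.Prime
  · have h1 := h.bound p hp
    have h2 : 1 ≤ p - 1 := by have := hp.two_le; omega
    exact le_trans (Nat.le_mul_of_pos_left _ h2) h1
  · rw [Nat.factorization_eq_zero_of_not_prime _ hp]
    exact Nat.zero_le _

/-- the primes in `(P, n]` -/
def prs (P n : ℕ) : Finset ℕ := (Ioc P n).filter Nat.Prime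

/-- the number of primes `p ∈ (P, n]` with exponent at least `i` in `V` -/
def level (P n V i : ℕ) : ℕ := ((prs P n).filter fun p => i ≤ V.factorization p).card

theorem level_le (P n V i : ℕ) : level P n V i ≤ n := by
  refine (Finset.card_filter_le _ _).trans ((Finset.card_filter_le _ _).trans ?_)
  rw [Nat.card_Ioc]
  exact Nat.sub_le _ _

theorem fact_eq_of_level {P n V V' : ℕ} (h : Good n V) (h' : Good n V')
    (hl : ∀ i, 1 ≤ i → level P n V i = level P n V' i) {p : ℕ} (hp : p ∈ prs P n)
    (hlt : V.factorization p < V'.factorization p) : False := by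
  have hpp : p.Prime := (Finset.mem_filter.1 hp).2
  set i := V'.factorization p with hi
  have h1 := hl i (by omega)
  have h2 : level P n V i < level P n V' i := by
    apply Finset.card_lt_card
    rw [Finset.ssubset_iff_of_subset]
    · refine ⟨p, Finset.mem_filter.2 ⟨hp, le_refl _⟩, fun hh => ?_⟩
      have := (Finset.mem_filter.1 hh).2
      omega
    · intro q hq
      rw [Finset.mem_filter] at hq ⊢
      refine ⟨hq.1, ?_⟩
      have hqp : q.Prime := (Finset.mem_filter.1 hq.1).2
      by_cases hqle : q ≤ p
      · exact h'.anti q p hqp hpp hqle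
      · exfalso
        have := h.anti p q hpp hqp (by omega)
        omega
  omega

/-- the large exponents -/
def coreSet (P n K V : ℕ) : Finset ℕ := (prs P n).filter fun p => K < V.factorization p

/-- the multiset of the `u_p - K`, for the primes `p ∈ (P, n]` with exponent `u_p > K` -/
def core (P n K V : ℕ) : Multiset ℕ :=
  (coreSet P n K V).val.map fun p => V.factorization p - K

theorem core_pos {P n K V i : ℕ} (h : i ∈ core P n K V) : 0 < i := by
  rw [core, Multiset.mem_map] at h
  obtain ⟨p, hp, rfl⟩ := h
  have hp' : p ∈ coreSet P n K V := hp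
  have := (Finset.mem_filter.1 hp').2
  omega

theorem level_core {P n K V i : ℕ} (hi : K < i) :
    level P n V i = ((core P n K V).countP fun x => i - K ≤ x) := by
  rw [core, Multiset.countP_map, level]
  rw [← Finset.filter_val, Finset.card_val]
  congr 1
  ext p
  simp only [coreSet, Finset.mem_filter]
  constructor
  · rintro ⟨h1, h2⟩
    exact ⟨⟨h1, by omega⟩, by omega⟩
  · rintro ⟨⟨h1, h2⟩, h3⟩
    exact ⟨h1, by omega⟩

/-- The data determines the value. -/
theorem eq_of_data {P n K V V' : ℕ} (h : Good n V) (h' : Good n V')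
    (h1 : ∀ p, p ≤ P → V.factorization p = V'.factorization p)
    (h2 : ∀ i, 1 ≤ i → i ≤ K → level P n V i = level P n V' i)
    (h3 : core P n K V = core P n K V') : V = V' := by
  have hl : ∀ i, 1 ≤ i → level P n V i = level P n V' i := by
    intro i hi
    by_cases hK : i ≤ K
    · exact h2 i hi hK
    · rw [level_core (by omega : K < i), level_core (by omega : K < i), h3]
  apply Nat.eq_of_factorization_eq h.ne h'.ne
  intro p
  by_cases hp : p.Prime
  · by_cases hP : p ≤ P
    · exact h1 p hP
    · by_cases hn : p ≤ n
      · have hm : p ∈ prs P n := by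
          rw [prs, Finset.mem_filter, Finset.mem_Ioc]
          exact ⟨⟨by omega, hn⟩, hp⟩
        rcases lt_trichotomy (V.factorization p) (V'.factorization p) with hlt | he | hgt
        · exact (fact_eq_of_level h h' hl hm hlt).elim
        · exact he
        · exact (fact_eq_of_level h' h (fun i hi => (hl i hi).symm) hm hgt).elim
      · rw [h.zero p hp (by omega), h'.zero p hp (by omega)]
  · rw [Nat.factorization_eq_zero_of_not_prime _ hp, Nat.factorization_eq_zero_of_not_prime _ hp]

/-- The data, as a map to a finite type. -/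
def data (P n K N : ℕ) (hN : ∀ V, Good n V → (core P n K V).sum ≤ N) (V : vals n) :
    (Fin (P + 1) → Fin (n + 1)) × (Fin K → Fin (n + 1)) × (Σ s : Fin (N + 1), Nat.Partition s) :=
  (fun i => ⟨V.1.factorization i, Nat.lt_succ_of_le ((good_of_mem V.2).le i)⟩,
    fun i => ⟨level P n V.1 (i + 1), Nat.lt_succ_of_le (level_le _ _ _ _)⟩,
    ⟨⟨(core P n K V.1).sum, Nat.lt_succ_of_le (hN _ (good_of_mem V.2))⟩,
      ⟨core P n K V.1, fun h => core_pos h, rfl⟩⟩)

theorem data_injective (P n K N : ℕ) (hN : ∀ V, Good n V → (core P n K V).sum ≤ N) :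
    Function.Injective (data P n K N hN) := by
  intro V V' hVV
  apply Subtype.ext
  have e1 := congrArg Prod.fst hVV
  have e2 := congrArg (fun x => x.2.1) hVV
  have e3 := congrArg (fun x => x.2.2.2.parts) hVV
  apply eq_of_data (P := P) (K := K) (good_of_mem V.2) (good_of_mem V'.2)
  · intro p hp
    have := congrFun e1 ⟨p, Nat.lt_succ_of_le hp⟩
    exact congrArg Fin.val this
  · intro i hi hiK
    have := congrFun e2 ⟨i - 1, by omega⟩
    have := congrArg Fin.val this
    simp only [data] at this
    rwa [Nat.sub_add_cancel hi] at this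
  · exact e3

theorem vals_finite (n : ℕ) : (vals n).Finite := by
  have hN : ∀ V, Good n V → (core 0 n 0 V).sum ≤ n * n := by
    intro V hV
    rw [core]
    refine (Multiset.sum_le_card_nsmul _ n ?_).trans ?_
    · intro x hx
      rw [Multiset.mem_map] at hx
      obtain ⟨p, _, rfl⟩ := hx
      exact (Nat.sub_le _ _).trans (hV.le p)
    · rw [Multiset.card_map, smul_eq_mul]
      apply Nat.mul_le_mul_right
      refine (Finset.card_filter_le _ _).trans ((Finset.card_filter_le _ _).trans ?_)
      simp
  have := Finite.of_injective _ (data_injective 0 n 0 (n * n) hN)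
  exact Set.toFinite _

theorem ncard_vals_le (P n K N : ℕ) (hN : ∀ V, Good n V → (core P n K V).sum ≤ N) :
    (vals n).ncard ≤ (n + 1) ^ (P + 1) * ((n + 1) ^ K *
      ∑ s ∈ Finset.range (N + 1), Fintype.card (Nat.Partition s)) := by
  have h := Nat.card_le_card_of_injective _ (data_injective P n K N hN)
  rw [Nat.card_coe_set_eq, Nat.card_eq_fintype_card, Fintype.card_prod, Fintype.card_prod,
    Fintype.card_fun, Fintype.card_fun, Fintype.card_sigma, Fintype.card_fin, Fintype.card_fin,
    Fintype.card_fin, Fin.sum_univ_eq_sum_range (fun s => Fintype.card (Nat.Partition s))] at h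
  exact h

end V11176.MC
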